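import Pool.Agent.KCN.Exist

/-!
# `K(C(n) | n, K(n))` is unbounded

Negative answer to Q1 of `MP_c8d0e7_lc`.  The definitions (machines, optimality, complexities and
the identification of numbers with strings) are in `Pool/Agent/KCN/Cplx.lean`.

Idea of the proof (a finite game against the approximations of the complexities).  Suppose
`K(C(x) | x, K(x)) ≤ c` for all `x`; then at all late stages `C_t(x)` lies in an enumerable set
`S(x, K_t(x))` of at most `b = 2^(c+1)` numbers.  For a block of `2^n` fresh strings `x` we make
`K(x)` at most some `k` and then lower `C(x)` in `N = b s` steps by a gap `g` each, waiting for
stability after each step.  Either at some step a noticeable fraction of the block makes a big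
jump down in `C`; by counting programs this can happen only a bounded number of times at each
level.  Or most of the elements take `N + 1` different values of `C_t(x)`, hence more than `s`
different values of `K_t(x)`, so that `K(x) ≤ k - s`.  Doubling the price `2^(n-k)` for each new
block of a round, and playing sufficiently many rounds, the Kraft sum of `2^(-K(x))` exceeds `1`.
-/

namespace Pool.Agent.Results.MP_c8d0e7_lc.Unbounded

open Pool.Agent.KCN

/-- Optimal plain machines, optimal prefix-free machines and optimal conditional prefix-free
machines exist; and for every choice `U`, `V`, `W` of such machines and every computable pairing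
`pr` of strings, the function `n ↦ K(C(n) | n, K(n))` is unbounded, where `C` is the plain
complexity with respect to `U`, `K` the prefix-free complexity with respect to `V`, and
`K(· | ·)` the conditional prefix-free complexity with respect to `W`. -/
theorem result :
    (∃ U, IsOptimalPlain U) ∧ (∃ V, IsOptimalPrefixFree V) ∧ (∃ W, IsOptimalCondPrefixFree W) ∧
    ∀ (U V : List Bool →. List Bool) (W : List Bool → List Bool →. List Bool)
      (pr : List Bool → List Bool → List Bool),
      IsOptimalPlain U → IsOptimalPrefixFree V → IsOptimalCondPrefixFree W → Computable₂ pr →
      ∀ c : ℕ, ∃ n : ℕ,
        c < descLen (fun p => W p (pr (str n) (str (descLen V (str n)))))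
          (str (descLen U (str n))) :=
  ⟨exists_optimalPlain, exists_optimalPrefixFree, exists_optimalCondPrefixFree,
    fun _ _ _ _ hU hV hW hpr c => unbounded hU hV hW hpr c⟩

end Pool.Agent.Results.MP_c8d0e7_lc.Unbounded
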